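import Pool.Agent.Helper7.GZ.Zm
import Pool.Agent.Helper63.FRT.Frf
import Pool.Agent.Helper31.EC.Real

/-! SOME EXPONENT OF A BOX OF THE WINDOW `c` IS `c`: if a label without leak at the window `c` has a frame whose exponents
are all at least `c + d`, the digits of level `d` of the point are known to every type at the window `0`. -/

set_option autoImplicit false

namespace Pool.Agent.Helper77.ONE

open Finset Filter Topology Pool.Agent.Helper69.RK Pool.Agent.Helper31.EC Pool.Agent.Helper31.EC.Sp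
open Pool.Agent.Helper40.EL Pool.Agent.Helper89.LX Pool.Agent.Helper3.LF Pool.Agent.Helper84.MT
open Pool.Agent.Helper89.TAY
open Pool.Agent.Helper7.GZ
open Pool.Agent.Helper36.AM (Frm inv_deg)

noncomputable section

/-! ### oscillation and partial derivatives -/

section osc

variable {e : ℕ} {Y : Fin e → ℝ} {f : (Fin e → ℝ) → ℝ} {B : ℝ}
  (hd : ∀ (i : Fin e) (y : Fin e → ℝ), (∀ j, |y j - Y j| < 1) →
    HasDerivAt (fun t => f (Function.update y i t)) (pd i f y) (y i))
  (hB : ∀ (i : Fin e) (y : Fin e → ℝ), (∀ j, |y j - Y j| < 1) → |pd i f y| ≤ B)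

include hd hB

theorem osc_one (y : Fin e → ℝ) (hy : ∀ j, |y j - Y j| < 1) (i : Fin e) (t : ℝ) (ht : |t - Y i| < 1) :
    |f y - f (Function.update y i t)| ≤ B * 2 := by
  have hB0 : 0 ≤ B := (abs_nonneg _).trans (hB i y hy)
  have h1 : ∀ s ∈ Metric.ball (Y i) 1, HasDerivWithinAt (fun t => f (Function.update y i t))
      (pd i f (Function.update y i s)) (Metric.ball (Y i) 1) s := by
    intro s hs
    rw [Metric.mem_ball, Real.dist_eq] at hs
    have h2 := hd i (Function.update y i s) (upd_lt hy hs)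
    simp only [Function.update_idem, Function.update_self] at h2
    exact h2.hasDerivWithinAt
  have h3 := Convex.norm_image_sub_le_of_norm_hasDerivWithin_le (f := fun t => f (Function.update y i t))
    (f' := fun s => pd i f (Function.update y i s)) (C := B) h1 (fun s hs => by
      rw [Metric.mem_ball, Real.dist_eq] at hs
      exact hB i _ (upd_lt hy hs)) (convex_ball (Y i) 1) (x := t) (y := y i)
    (by rw [Metric.mem_ball, Real.dist_eq]; exact ht) (by rw [Metric.mem_ball, Real.dist_eq]; exact hy i)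
  rw [Real.norm_eq_abs, Real.norm_eq_abs, Function.update_eq_self] at h3
  refine h3.trans (mul_le_mul_of_nonneg_left ?_ hB0)
  have h4 := abs_lt.1 (hy i)
  have h5 := abs_lt.1 ht
  rw [abs_le]
  constructor <;> linarith [h4.1, h4.2, h5.1, h5.2]

/-- the oscillation on the cube -/
theorem osc_all (y y' : Fin e → ℝ) (hy : ∀ j, |y j - Y j| < 1) (hy' : ∀ j, |y' j - Y j| < 1) :
    |f y - f y'| ≤ e * (B * 2) := by
  classical
  have key : ∀ s : Finset (Fin e), |f y - f (fun i => if i ∈ s then y' i else y i)| ≤ s.card * (B * 2) := by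
    intro s
    induction s using Finset.induction_on with
    | empty => simp
    | insert a s ha ih =>
      have h1 : (fun i => if i ∈ insert a s then y' i else y i) =
          Function.update (fun i => if i ∈ s then y' i else y i) a (y' a) := by
        funext i
        by_cases h : i = a
        · subst h
          rw [Function.update_self, if_pos (Finset.mem_insert_self _ _)]
        · rw [Function.update_of_ne h]
          by_cases h2 : i ∈ s
          · rw [if_pos (Finset.mem_insert_of_mem h2), if_pos h2]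
          · rw [if_neg (by
              rw [Finset.mem_insert]
              rintro (h3 | h3)
              · exact h h3
              · exact h2 h3), if_neg h2]
      have h2 := osc_one hd hB (fun i => if i ∈ s then y' i else y i) (fun j => by
        by_cases h : j ∈ s
        · simp only [if_pos h]
          exact hy' j
        · simp only [if_neg h]
          exact hy j) a (y' a) (hy' a)
      rw [h1, Finset.card_insert_of_notMem ha]
      push_cast
      have h3 := abs_sub_le (f y) (f fun i => if i ∈ s then y' i else y i)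
        (f (Function.update (fun i => if i ∈ s then y' i else y i) a (y' a)))
      linarith
  have h1 := key Finset.univ
  simp only [Finset.mem_univ, if_true, Finset.card_univ, Fintype.card_fin] at h1
  exact h1

end osc

variable {S : Sp} {M : ℕ} {E : ℕ → ℕ} {ι : Type}

/-- typically the chart oscillates by `2 ^ (-(c + d) n)` on the cell of the window `c` -/
theorem osc_cell {Q : S.VV M} {L : Lab S} {La : Fin M → ℝ} (f : Frm Q L La) (lf : Leaf S Q E) {c d : ℝ} (h0 : 0 ≤ c)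
    (h1 : c < 1) (hL : Nul S (fun k => (L k).leak (lf.win c k))) (hcd1 : 0 ≤ c + d) (hcd : ∀ j, c + d ≤ La j)
    (hLa : ∀ j, La j ≤ 1) (hpos : ∀ j, 0 < La j) : ∃ K : ℕ → ℝ, S.Sub K ∧ Typ (S := L.sp) (fun k w => ∀ y : Fin lf.e → ℝ,
      (∀ i, |y i - lf.Y.v k ((L k).p.π w) i| < S.dl c k) → ∀ j,
        |lf.F k ((L k).p.π w) y j - lf.F k ((L k).p.π w) (lf.Y.v k ((L k).p.π w)) j| ≤ K k * S.dl (c + d) k) := by
  classical
  obtain ⟨κ, hκ⟩ := Pool.Agent.Helper63.FRT.frm_deg f hpos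
  obtain ⟨Kp, hKp, hpt⟩ := lf.pt
  obtain ⟨Kx, hKx', hx⟩ := f.X.bd
  have hKx : S.Sub Kx := (sp_Sub L).mp hKx'
  obtain ⟨Kc, hKc, hc⟩ := f.bd
  obtain ⟨Kn, hKn, hn⟩ := frow_near f hκ (fun j => (hpos j).le) (u := 0) (fun j => by rw [add_zero]; exact hLa j) hKp
  have key : ∀ j : Fin M, ∃ K' : ℕ → ℝ, S.Sub K' ∧ Typ (S := L.sp) (fun k w => ∀ y : Fin lf.e → ℝ,
      (∀ i, |y i - lf.Y.v k ((L k).p.π w) i| < S.dl c k) →
        |MvPolynomial.eval (lf.F k ((L k).p.π w) y) (frow f k w j)| ≤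
          K' k * |MvPolynomial.eval (lf.F k ((L k).p.π w) (lf.Y.v k ((L k).p.π w))) (frow f k w j)|) := by
    intro j
    refine typ_pol lf h0 h1 L hL (D := (κ + 1) ^ M) (fun k w x => MvPolynomial.eval x (frow f k w j)) ?_
      (κ := fun _ => 1) (S.Sub_const zero_le_one) ?_
    · refine Eventually.of_forall fun k w _ => ⟨frow f k w j, ?_, rfl⟩
      rw [one_mul]
      exact frow_deg f hκ k w j
    · filter_upwards [f.fn] with k hk w w' a b z v _ _ x
      have e1 : frow f k w j = frow f k w' j := by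
        show MvPolynomial.C (S.dl (La j) k)⁻¹ * Pool.Agent.Helper36.AM.inv (f.P k w) j =
          MvPolynomial.C (S.dl (La j) k)⁻¹ * Pool.Agent.Helper36.AM.inv (f.P k w') j
        rw [hk w w' a b z v]
      rw [e1, one_mul]
  choose K' hK' hT using key
  have hT2 := Typ_all _ hT
  obtain ⟨B, hB⟩ : ∃ B : ℕ → ℝ, B = fun k => (∑ j, K' j k) * (Kx k + Kn k) := ⟨_, rfl⟩
  have hBS : S.Sub B := by
    rw [hB]
    refine Sp.Sub.mul ?_ (hKx.add hKn)
    have h2 : ∀ s : Finset (Fin M), S.Sub (fun k => ∑ j ∈ s, K' j k) := by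
      intro s
      induction s using Finset.induction_on with
      | empty =>
        simp only [Finset.sum_empty]
        exact S.Sub_const le_rfl
      | insert a s ha ih =>
        simp only [Finset.sum_insert ha]
        exact (hK' a).add ih
    exact h2 _
  obtain ⟨Lc, hLc⟩ : ∃ Lc : ℕ → ℝ, Lc = fun k => ((κ : ℝ) + 1) ^ M * Kc k * (κ * (B k + 1) ^ κ) := ⟨_, rfl⟩
  have hLS : S.Sub Lc := by
    rw [hLc]
    exact ((S.Sub_const (by positivity)).mul hKc).mul ((S.Sub_const (Nat.cast_nonneg _)).mul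
      (Sub_pow' (hBS.add (S.Sub_const zero_le_one)) κ))
  refine ⟨fun k => (B k + B k) + Lc k * (B k + B k), (hBS.add hBS).add (hLS.mul (hBS.add hBS)), ?_⟩
  refine Typ.mono (S := L.sp) hT2 ?_
  have hpos' : ∀ᶠ k in UF, ∀ j, 0 ≤ K' j k := eventually_all.2 fun j => (hK' j).1
  filter_upwards [hpos', hpt, hx, hc, hn, hKx.1, hKn.1, hKc.1, hBS.1, hLS.1] with k g1 g2 g3 g4 g5 g6 g7 g8 g9 g10 w hw hh
    y hy j
  have hω := (L k).p.supp w hw
  have hself : ∀ i, |lf.Y.v k ((L k).p.π w) i - lf.Y.v k ((L k).p.π w) i| < S.dl c k := fun i => by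
    rw [sub_self, abs_zero]
    exact S.dl_pos _ _
  -- values of the rows
  have hrow : ∀ j, |MvPolynomial.eval (lf.F k ((L k).p.π w) (lf.Y.v k ((L k).p.π w))) (frow f k w j)| ≤ Kx k + Kn k := by
    intro j
    have a1 := g5 w hw (lf.F k ((L k).p.π w) (lf.Y.v k ((L k).p.π w))) (fun i => by
      rw [abs_sub_comm]
      exact g2 _ hω i) j
    rw [S.dl_zero, mul_one] at a1
    have a2 := g3 w hw j
    have a3 := abs_add_le (MvPolynomial.eval (lf.F k ((L k).p.π w) (lf.Y.v k ((L k).p.π w))) (frow f k w j) -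
      f.X.v k w j) (f.X.v k w j)
    rw [sub_add_cancel] at a3
    linarith
  have hval : ∀ y : Fin lf.e → ℝ, (∀ i, |y i - lf.Y.v k ((L k).p.π w) i| < S.dl c k) → ∀ j,
      |MvPolynomial.eval (lf.F k ((L k).p.π w) y) (Pool.Agent.Helper36.AM.inv (f.P k w) j)| ≤ B k * S.dl (c + d) k := by
    intro y hy j
    have a1 := hh j y hy
    have a2 : |MvPolynomial.eval (lf.F k ((L k).p.π w) y) (frow f k w j)| ≤ B k := by
      refine a1.trans ?_
      rw [hB]
      refine mul_le_mul ?_ (hrow j) (abs_nonneg _) (Finset.sum_nonneg fun j _ => g1 j)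
      exact Finset.single_le_sum (f := fun j => K' j k) (fun i _ => g1 i) (Finset.mem_univ j)
    have a3 : MvPolynomial.eval (lf.F k ((L k).p.π w) y) (Pool.Agent.Helper36.AM.inv (f.P k w) j) =
        S.dl (La j) k * MvPolynomial.eval (lf.F k ((L k).p.π w) y) (frow f k w j) := by
      show _ = S.dl (La j) k * MvPolynomial.eval (lf.F k ((L k).p.π w) y)
        (MvPolynomial.C (S.dl (La j) k)⁻¹ * Pool.Agent.Helper36.AM.inv (f.P k w) j)
      rw [map_mul, MvPolynomial.eval_C, ← mul_assoc, mul_inv_cancel₀ (S.dl_pos _ _).ne', one_mul]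
    rw [a3, abs_mul, abs_of_pos (S.dl_pos _ _), mul_comm]
    exact mul_le_mul a2 (S.dl_anti (hcd j) k) (S.dl_pos _ _).le g9
  have hdcd : S.dl (c + d) k * B k ≤ B k * S.dl (c + d) k := le_of_eq (mul_comm _ _)
  obtain ⟨U, hU⟩ : ∃ U : (Fin lf.e → ℝ) → Fin M → ℝ, U = fun y i =>
    MvPolynomial.eval (lf.F k ((L k).p.π w) y) (Pool.Agent.Helper36.AM.inv (f.P k w) i) := ⟨_, rfl⟩
  have hF : ∀ y j, lf.F k ((L k).p.π w) y j = U y j + MvPolynomial.eval (U y) (f.P k w j) := by
    intro y j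
    have a1 := Pool.Agent.Helper36.AM.inv_eval (f.tri k w) (lf.F k ((L k).p.π w) y) j
    rw [hU]
    show _ = MvPolynomial.eval (lf.F k ((L k).p.π w) y) (Pool.Agent.Helper36.AM.inv (f.P k w) j) + _
    rw [a1]
    ring
  have hUv : ∀ y : Fin lf.e → ℝ, (∀ i, |y i - lf.Y.v k ((L k).p.π w) i| < S.dl c k) → ∀ j,
      |U y j| ≤ B k * S.dl (c + d) k := by
    intro y hy j
    rw [hU]
    exact hval y hy j
  have hUd : ∀ i, |U y i - U (lf.Y.v k ((L k).p.π w)) i| ≤ (B k + B k) * S.dl (c + d) k := by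
    intro i
    have a1 := abs_sub (U y i) (U (lf.Y.v k ((L k).p.π w)) i)
    have a2 := hUv y hy i
    have a3 := hUv _ hself i
    rw [add_mul]
    linarith
  have hdl1 : S.dl (c + d) k ≤ 1 := by
    rw [← S.dl_zero k]
    exact S.dl_anti hcd1 k
  have hb1 : ∀ y : Fin lf.e → ℝ, (∀ i, |y i - lf.Y.v k ((L k).p.π w) i| < S.dl c k) → ∀ j, |U y j| ≤ B k + 1 := by
    intro y hy j
    refine (hUv y hy j).trans ?_
    have := mul_le_mul_of_nonneg_left hdl1 g9
    linarith
  have a1 := Pool.Agent.Helper81.MI.eval_sub_le (f.P k w j) (hκ k w j) (U y) (U (lf.Y.v k ((L k).p.π w))) (B k + 1)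
    (Kc k) ((B k + B k) * S.dl (c + d) k) (by linarith) g8
    (mul_nonneg (by linarith) (S.dl_pos _ _).le) (hb1 y hy) (hb1 _ hself) hUd (g4 w hw j)
  rw [hF y j, hF (lf.Y.v k ((L k).p.π w)) j]
  have e1 : U y j + MvPolynomial.eval (U y) (f.P k w j) - (U (lf.Y.v k ((L k).p.π w)) j +
      MvPolynomial.eval (U (lf.Y.v k ((L k).p.π w))) (f.P k w j)) = (U y j - U (lf.Y.v k ((L k).p.π w)) j) +
      (MvPolynomial.eval (U y) (f.P k w j) - MvPolynomial.eval (U (lf.Y.v k ((L k).p.π w))) (f.P k w j)) := by ring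
  rw [e1]
  refine (abs_add_le _ _).trans ?_
  have e2 : ((B k + B k) + Lc k * (B k + B k)) * S.dl (c + d) k = (B k + B k) * S.dl (c + d) k +
      ((κ : ℝ) + 1) ^ M * Kc k * (κ * (B k + 1) ^ κ) * ((B k + B k) * S.dl (c + d) k) := by
    rw [hLc]
    ring
  rw [e2]
  exact add_le_add (hUd j) a1

/-- typically all partial derivatives of the chart are at most `2 ^ (-d n)` on the unit cell -/
theorem der_cell {Q : S.VV M} {L : Lab S} {La : Fin M → ℝ} (f : Frm Q L La) (lf : Leaf S Q E) {c d : ℝ} (h0 : 0 ≤ c)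
    (h1 : c < 1) (hL : Nul S (fun k => (L k).leak (lf.win c k))) (hcd1 : 0 ≤ c + d) (hcd : ∀ j, c + d ≤ La j)
    (hLa : ∀ j, La j ≤ 1) (hpos : ∀ j, 0 < La j) : ∃ K : ℕ → ℝ, S.Sub K ∧ Typ (S := S) (fun k ω => ∀ j a,
      ∀ y : Fin lf.e → ℝ, (∀ i, |y i - lf.Y.v k ω i| < 1) →
        |pd a (fun y => lf.F k ω y j) y| ≤ K k * S.dl d k) := by
  classical
  obtain ⟨K, hK, hT⟩ := osc_cell f lf h0 h1 hL hcd1 hcd hLa hpos
  obtain ⟨KB, hKB, hKB1, hax⟩ := leaf_axB lf 2
  -- the derivative at the point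
  have hT1 : Typ (S := L.sp) (fun k w => ∀ j a, |pd a (fun y => lf.F k ((L k).p.π w) y j) (lf.Y.v k ((L k).p.π w))| ≤
      KB k * K k * S.dl d k) := by
    refine Typ.mono (S := L.sp) hT ?_
    filter_upwards [hax, lf.alg, lf.crF, hKB1, hK.1] with k g1 g2 g3 g4 g5 w hw hh j a
    have hω := (L k).p.supp w hw
    have hself : ∀ i, |lf.Y.v k ((L k).p.π w) i - lf.Y.v k ((L k).p.π w) i| < S.dl c k := fun i => by
      rw [sub_self, abs_zero]
      exact S.dl_pos _ _
    have hdl1 : S.dl c k ≤ 1 := by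
      rw [← S.dl_zero k]
      exact S.dl_anti h0 k
    obtain ⟨v, hv⟩ : ∃ v : ℝ, v = lf.F k ((L k).p.π w) (lf.Y.v k ((L k).p.π w)) j := ⟨_, rfl⟩
    have halg := g2 _ hω
    have hmem : (fun y => lf.F k ((L k).p.π w) y j - v) ∈ Cl (lf.Y.v k ((L k).p.π w)) (lf.al k ((L k).p.π w)) 1 :=
      ⟨_, halg.sub (g3 _ hω j) (halg.const' 1 v), fun y _ => rfl⟩
    have hpd : pd a (fun y => lf.F k ((L k).p.π w) y j) = pd a (fun y => lf.F k ((L k).p.π w) y j - v) := by
      funext y
      unfold pd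
      rw [deriv_sub_const]
    rw [hpd]
    have h2 := (Cl.pd halg hmem a).2 (lf.Y.v k ((L k).p.π w)) (fun i => by
      rw [sub_self, abs_zero]
      exact one_pos)
    have h3 := pd_le (f := fun y => lf.F k ((L k).p.π w) y j - v) (K := KB k) (ρ := S.dl c k)
      (A := K k * S.dl (c + d) k) (Cl.axB halg (g1 _ hω) (by norm_num : 1 ≤ 2) hmem)
      (by linarith) (S.dl_pos _ _) hdl1 (fun y hy => by
        rw [hv]
        exact hh y hy j) a _ hself h2
    refine h3.trans (le_of_eq ?_)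
    rw [S.dl_add]
    have := (S.dl_pos c k).ne'
    field_simp
  have hT2 : Typ (S := S) (fun k ω => ∀ j a, |pd a (fun y => lf.F k ω y j) (lf.Y.v k ω)| ≤ KB k * K k * S.dl d k) :=
    (Pj.typ_iff L.pj).1 hT1
  -- the derivative on the unit cell
  have hleak : Nul S (fun k => (FLab.triv (S.F k)).leak (lf.win 0 k)) := by
    show Tendsto _ _ _
    simp only [FLab.triv_leak, zero_div]
    exact tendsto_const_nhds
  have key : ∀ ja : Fin M × Fin lf.e, ∃ K' : ℕ → ℝ, S.Sub K' ∧ Typ (S := S) (fun k ω => ∀ y : Fin lf.e → ℝ,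
      (∀ i, |y i - lf.Y.v k ω i| < 1) → |pd ja.2 (fun y => lf.F k ω y ja.1) y| ≤
        K' k * |pd ja.2 (fun y => lf.F k ω y ja.1) (lf.Y.v k ω)|) := by
    rintro ⟨j, a⟩
    obtain ⟨K', hK', hT'⟩ := typ_al lf (c := 0) le_rfl one_pos (fun k => FLab.triv (S.F k)) hleak (D := 2)
      (fun k w => pd a (fun y => lf.F k ((FLab.triv (S.F k)).p.π w) y j)) (by
        filter_upwards [lf.alg, lf.crF] with k g2 g3 w hw
        have hω := (FLab.triv (S.F k)).p.supp w hw
        have halg := g2 _ hω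
        have hmem : (fun y => lf.F k ((FLab.triv (S.F k)).p.π w) y j) ∈ Cl (lf.Y.v k ((FLab.triv (S.F k)).p.π w))
          (lf.al k ((FLab.triv (S.F k)).p.π w)) 1 := ⟨_, g3 _ hω j, fun y _ => rfl⟩
        obtain ⟨g, hg, hgf⟩ := (Cl.pd halg hmem a).1
        exact ⟨g, hg, fun y hy => (hgf y hy).symm⟩) (κ := fun _ => 1) (S.Sub_const zero_le_one) (by
        filter_upwards [lf.fn] with k hk w w' hw hw' hZ _ hLa' _ y _
        have h4 : lf.F k ((FLab.triv (S.F k)).p.π w) = lf.F k ((FLab.triv (S.F k)).p.π w') :=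
          hk _ _ ((FLab.triv (S.F k)).p.supp w hw) ((FLab.triv (S.F k)).p.supp w' hw')
            (((FLab.triv (S.F k)).p.hZ w w' hw hw').mp hZ) hLa'
        rw [h4, one_mul])
    refine ⟨K', hK', ?_⟩
    have h5 : Typ (S := Lab.sp (S := S) (fun k => FLab.triv (S.F k))) (fun k w => ∀ y : Fin lf.e → ℝ,
      (∀ i, |y i - lf.Y.v k ((FLab.triv (S.F k)).p.π w) i| < 1) →
        |pd a (fun y => lf.F k ((FLab.triv (S.F k)).p.π w) y j) y| ≤
        K' k * |pd a (fun y => lf.F k ((FLab.triv (S.F k)).p.π w) y j) (lf.Y.v k ((FLab.triv (S.F k)).p.π w))|) := by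
      refine Typ.mono (S := Lab.sp (S := S) (fun k => FLab.triv (S.F k))) hT' (Eventually.of_forall fun k w _ hh y hy => ?_)
      apply hh y
      intro i
      rw [S.dl_zero]
      exact hy i
    exact (Pj.typ_iff (Lab.pj (S := S) (fun k => FLab.triv (S.F k)))).1 h5
  choose K' hK' hT' using key
  have hT3 := Typ_all _ hT'
  have hsub : S.Sub (fun k => ∑ ja, K' ja k) := by
    have h2 : ∀ s : Finset (Fin M × Fin lf.e), S.Sub (fun k => ∑ ja ∈ s, K' ja k) := by
      intro s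
      induction s using Finset.induction_on with
      | empty =>
        simp only [Finset.sum_empty]
        exact S.Sub_const le_rfl
      | insert a s ha ih =>
        simp only [Finset.sum_insert ha]
        exact (hK' a).add ih
    exact h2 _
  refine ⟨fun k => (∑ ja, K' ja k) * (KB k * K k), hsub.mul (hKB.mul hK), ?_⟩
  have hpos' : ∀ᶠ k in UF, ∀ ja, 0 ≤ K' ja k := eventually_all.2 fun ja => (hK' ja).1
  refine (hT2.and hT3).mono ?_
  filter_upwards [hpos'] with k g1 ω _ hh j a y hy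
  have a1 := hh.1 j a
  have a2 := hh.2 (j, a) y hy
  refine a2.trans ?_
  rw [mul_assoc]
  refine mul_le_mul (Finset.single_le_sum (f := fun ja => K' ja k) (fun i _ => g1 i) (Finset.mem_univ (j, a))) a1
    (abs_nonneg _) (Finset.sum_nonneg fun ja _ => g1 ja)

/-- THE DIGITS OF LEVEL `d` ARE KNOWN TO THE TYPE at the window `0` -/
theorem dig_win {Q : S.VV M} {L : Lab S} {La : Fin M → ℝ} (f : Frm Q L La) (lf : Leaf S Q E) {c d : ℝ} (h0 : 0 ≤ c)
    (h1 : c < 1) (hL : Nul S (fun k => (L k).leak (lf.win c k))) (hcd1 : 0 ≤ c + d) (hd : d ≤ 1)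
    (hcd : ∀ j, c + d ≤ La j) (hLa : ∀ j, La j ≤ 1) (hpos : ∀ j, 0 < La j) :
    PLe (fun k => fc (Setoid.ker (Q.cellv d k))) (lf.win 0) := by
  obtain ⟨K, hK, hT⟩ := der_cell f lf h0 h1 hL hcd1 hcd hLa hpos
  obtain ⟨Kp, hKp, hpt⟩ := lf.pt
  refine PLe_cell_typ Q d (fun k => lf.La k ⊓ Setoid.ker (lf.Y.cellv 0 k)) (fun k => 2 * Kp k + lf.e * (K k * 2))
    (((S.Sub_const (by norm_num)).mul hKp).add ((S.Sub_const (Nat.cast_nonneg _)).mul
      (hK.mul (S.Sub_const (by norm_num))))) hT ?_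
  filter_upwards [hpt, lf.fn, lf.alg, lf.crF, hKp.1, hK.1] with k g1 g2 g3 g4 g5 g6 ω ω' a b hh hh' z r j
  have hF : lf.F k ω = lf.F k ω' := g2 ω ω' a b z r.1
  have hY : ∀ i, |lf.Y.v k ω' i - lf.Y.v k ω i| < 1 := by
    intro i
    have h2 : ⌊lf.Y.v k ω i / S.dl 0 k⌋ = ⌊lf.Y.v k ω' i / S.dl 0 k⌋ := congrFun r.2 i
    rw [S.dl_zero, div_one, div_one] at h2
    exact Int.abs_sub_lt_one_of_floor_eq_floor h2.symm
  have hself : ∀ i, |lf.Y.v k ω i - lf.Y.v k ω i| < 1 := fun i => by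
    rw [sub_self, abs_zero]
    exact one_pos
  have halg := g3 ω a
  have hosc := osc_all (Y := lf.Y.v k ω) (f := fun y => lf.F k ω y j) (B := K k * S.dl d k)
    (fun i y hy => (Cl.pd halg (⟨_, g4 ω a j, fun y _ => rfl⟩ : (fun y => lf.F k ω y j) ∈
      Cl (lf.Y.v k ω) (lf.al k ω) 1) i).2 y hy)
    (fun i y hy => hh j i y hy) (lf.Y.v k ω) (lf.Y.v k ω') hself hY
  have e1 : Q.v k ω j - Q.v k ω' j = (Q.v k ω j - lf.F k ω (lf.Y.v k ω) j) +
      (lf.F k ω (lf.Y.v k ω) j - lf.F k ω (lf.Y.v k ω') j) - (Q.v k ω' j - lf.F k ω' (lf.Y.v k ω') j) := by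
    rw [hF]
    ring
  rw [e1]
  have a1 := g1 ω a j
  have a2 := g1 ω' b j
  have a3 := abs_sub ((Q.v k ω j - lf.F k ω (lf.Y.v k ω) j) + (lf.F k ω (lf.Y.v k ω) j - lf.F k ω (lf.Y.v k ω') j))
    (Q.v k ω' j - lf.F k ω' (lf.Y.v k ω') j)
  have a4 := abs_add_le (Q.v k ω j - lf.F k ω (lf.Y.v k ω) j) (lf.F k ω (lf.Y.v k ω) j - lf.F k ω (lf.Y.v k ω') j)
  have a5 : Kp k * S.dl 1 k ≤ Kp k * S.dl d k := mul_le_mul_of_nonneg_left (S.dl_anti hd k) g5
  have e2 : (2 * Kp k + lf.e * (K k * 2)) * S.dl d k = 2 * (Kp k * S.dl d k) + lf.e * (K k * S.dl d k * 2) := by ring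
  rw [e2]
  linarith

/-- the digits of level `d` are known to all conditions of the window `0` -/
theorem dig_cnd {s : MSys S M E ι} {L : Lab S} {La : Fin M → ℝ} (f : Frm s.Q L La) {c d : ℝ} (h0 : 0 ≤ c) (h1 : c < 1)
    (dm : s.DMc c L) (hcd1 : 0 ≤ c + d) (hd : d ≤ 1) (hcd : ∀ j, c + d ≤ La j) (hLa : ∀ j, La j ≤ 1)
    (hpos : ∀ j, 0 < La j) (i : Option ι) : PLe (fun k => fc (Setoid.ker (s.Q.cellv d k))) (s.cnd 0 i) := by
  rcases i with _ | i
  · exact dg_pcd s.Q hd
  · exact dig_win f (s.lf i) h0 h1 (dm (some i)) hcd1 hd hcd hLa hpos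

/-- the digits of level `d` are known to `kappa_0` -/
theorem dig_kap {s : MSys S M E ι} {L : Lab S} {La : Fin M → ℝ} (f : Frm s.Q L La) {c d : ℝ} (h0 : 0 ≤ c) (h1 : c < 1)
    (dm : s.DMc c L) (hcd1 : 0 ≤ c + d) (hd : d ≤ 1) (hcd : ∀ j, c + d ≤ La j) (hLa : ∀ j, La j ≤ 1)
    (hpos : ∀ j, 0 < La j) {l : Lab S} (hl : s.IsKap 0 l) : H (up1 l (s.Q.dg d)) = 0 := by
  have h2 := (hl.fun_small (fun k => Setoid.comap (l k).p.π (Setoid.ker (s.Q.cellv d k))) (by
    intro i
    have h3 := dig_cnd f h0 h1 dm hcd1 hd hcd hLa hpos i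
    refine h3.of_le (Eventually.of_forall fun k => h_nonneg _ _) (Eventually.of_forall fun k => ?_)
    refine (h_anti (le_sup_right : (l k).p.map (s.cnd 0 i k) ≤ _)).trans ?_
    exact ((l k).p.h_map (fc (Setoid.ker (s.Q.cellv d k))) (s.cnd 0 i k)).le)).1
  have e0 : s.Q.dg d = cl (s.Q.bdd d).toInf := io_eq (s.Q.bdd d)
  rw [e0, H_up1_cl]
  exact ul_eq h2

/-- SOME EXPONENT IS AT MOST `c`: if the point has digits of every level over `kappa_0` -/
theorem exists_exp_le {s : MSys S M E ι} {L : Lab S} {La : Fin M → ℝ} (f : Frm s.Q L La) {c : ℝ} (h0 : 0 ≤ c)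
    (h1 : c < 1) (dm : s.DMc c L) (hLa : ∀ j, La j ≤ 1) {l : Lab S} (hl : s.IsKap 0 l)
    (hne : ∀ d : ℝ, 0 < d → d ≤ 1 → H (up1 l (s.Q.dg d)) ≠ 0) : ∃ j, La j ≤ c := by
  by_contra hcon
  push Not at hcon
  rcases isEmpty_or_nonempty (Fin M) with he | he
  · exact hne 1 one_pos le_rfl (dig_kap f h0 h1 dm (by linarith) le_rfl (fun j => he.elim j) hLa (fun j => he.elim j) hl)
  · obtain ⟨i₀, h2⟩ := Finite.exists_min La
    have h3 := hcon i₀
    have h4 := hLa i₀
    exact hne (La i₀ - c) (by linarith) (by linarith) (dig_kap f h0 h1 dm (by linarith) (by linarith)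
      (fun j => by linarith [h2 j]) hLa (fun j => by linarith [h2 j]) hl)

end

end Pool.Agent.Helper77.ONE
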